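import Pool.Agent.NNr.R11_1_2_5.D0
import Pool.Agent.NNr.R11_1_2_5.D1
import Pool.Agent.NNr.R11_1_2_5.D2
import Pool.Agent.NNe.Slots

set_option linter.all false
set_option maxRecDepth 1000000
namespace Pool.Agent.NNr.R11_1_2_5

open Pool.Agent.NNe

def wf0_0 : wfC (nat_lit 59) (nat_lit 2) C0_0 = true := by decide +kernel
def pl0_0 : plCk (nat_lit 59) (nat_lit 2) (nat_lit 11) (nat_lit 1) (nat_lit 0) (nat_lit 6) (nat_lit 21) (nat_lit 4) (nat_lit 0) nl0 CL0 = true := by decide +kernel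
def wf0_1 : wfC (nat_lit 59) (nat_lit 2) C0_1 = true := by decide +kernel
def pl0_1 : plCk (nat_lit 59) (nat_lit 2) (nat_lit 11) (nat_lit 1) (nat_lit 0) (nat_lit 6) (nat_lit 21) (nat_lit 4) (nat_lit 1) nl0 CL0 = true := by decide +kernel
def wf0_2 : wfC (nat_lit 59) (nat_lit 2) C0_2 = true := by decide +kernel
def pl0_2 : plCk (nat_lit 59) (nat_lit 2) (nat_lit 11) (nat_lit 1) (nat_lit 0) (nat_lit 6) (nat_lit 21) (nat_lit 4) (nat_lit 2) nl0 CL0 = true := by decide +kernel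
def wf0_3 : wfC (nat_lit 59) (nat_lit 2) C0_3 = true := by decide +kernel
def pl0_3 : plCk (nat_lit 59) (nat_lit 2) (nat_lit 11) (nat_lit 1) (nat_lit 0) (nat_lit 6) (nat_lit 21) (nat_lit 4) (nat_lit 3) nl0 CL0 = true := by decide +kernel
def wf0_4 : wfC (nat_lit 59) (nat_lit 2) C0_4 = true := by decide +kernel
def pl0_4 : plCk (nat_lit 59) (nat_lit 2) (nat_lit 11) (nat_lit 1) (nat_lit 0) (nat_lit 6) (nat_lit 21) (nat_lit 4) (nat_lit 4) nl0 CL0 = true := by decide +kernel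
def wf0_5 : wfC (nat_lit 59) (nat_lit 2) C0_5 = true := by decide +kernel
def pl0_5 : plCk (nat_lit 59) (nat_lit 2) (nat_lit 11) (nat_lit 1) (nat_lit 0) (nat_lit 6) (nat_lit 21) (nat_lit 4) (nat_lit 5) nl0 CL0 = true := by decide +kernel
def wf0_6 : wfC (nat_lit 59) (nat_lit 2) C0_6 = true := by decide +kernel
def pl0_6 : plCk (nat_lit 59) (nat_lit 2) (nat_lit 11) (nat_lit 1) (nat_lit 0) (nat_lit 6) (nat_lit 21) (nat_lit 4) (nat_lit 6) nl0 CL0 = true := by decide +kernel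
def wf0_7 : wfC (nat_lit 59) (nat_lit 2) C0_7 = true := by decide +kernel
def pl0_7 : plCk (nat_lit 59) (nat_lit 2) (nat_lit 11) (nat_lit 1) (nat_lit 0) (nat_lit 6) (nat_lit 21) (nat_lit 4) (nat_lit 7) nl0 CL0 = true := by decide +kernel
def wf0_8 : wfC (nat_lit 59) (nat_lit 2) C0_8 = true := by decide +kernel
def pl0_8 : plCk (nat_lit 59) (nat_lit 2) (nat_lit 11) (nat_lit 1) (nat_lit 0) (nat_lit 6) (nat_lit 21) (nat_lit 4) (nat_lit 8) nl0 CL0 = true := by decide +kernel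
def wf0_9 : wfC (nat_lit 59) (nat_lit 2) C0_9 = true := by decide +kernel
def pl0_9 : plCk (nat_lit 59) (nat_lit 2) (nat_lit 11) (nat_lit 1) (nat_lit 0) (nat_lit 6) (nat_lit 21) (nat_lit 4) (nat_lit 9) nl0 CL0 = true := by decide +kernel
def wf0_10 : wfC (nat_lit 59) (nat_lit 2) C0_10 = true := by decide +kernel
def pl0_10 : plCk (nat_lit 59) (nat_lit 2) (nat_lit 11) (nat_lit 1) (nat_lit 0) (nat_lit 6) (nat_lit 21) (nat_lit 4) (nat_lit 10) nl0 CL0 = true := by decide +kernel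
def wf0_12 : wfC (nat_lit 59) (nat_lit 2) C0_12 = true := by decide +kernel
def pl0_12 : plCk (nat_lit 59) (nat_lit 2) (nat_lit 11) (nat_lit 1) (nat_lit 0) (nat_lit 6) (nat_lit 21) (nat_lit 4) (nat_lit 12) nl0 CL0 = true := by decide +kernel
def wf0_14 : wfC (nat_lit 59) (nat_lit 2) C0_14 = true := by decide +kernel
def pl0_14 : plCk (nat_lit 59) (nat_lit 2) (nat_lit 11) (nat_lit 1) (nat_lit 0) (nat_lit 6) (nat_lit 21) (nat_lit 4) (nat_lit 14) nl0 CL0 = true := by decide +kernel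
def wf0_15 : wfC (nat_lit 59) (nat_lit 2) C0_15 = true := by decide +kernel
def pl0_15 : plCk (nat_lit 59) (nat_lit 2) (nat_lit 11) (nat_lit 1) (nat_lit 0) (nat_lit 6) (nat_lit 21) (nat_lit 4) (nat_lit 15) nl0 CL0 = true := by decide +kernel
def wf0_16 : wfC (nat_lit 59) (nat_lit 2) C0_16 = true := by decide +kernel
def pl0_16 : plCk (nat_lit 59) (nat_lit 2) (nat_lit 11) (nat_lit 1) (nat_lit 0) (nat_lit 6) (nat_lit 21) (nat_lit 4) (nat_lit 16) nl0 CL0 = true := by decide +kernel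
def wf0_17 : wfC (nat_lit 59) (nat_lit 2) C0_17 = true := by decide +kernel
def pl0_17 : plCk (nat_lit 59) (nat_lit 2) (nat_lit 11) (nat_lit 1) (nat_lit 0) (nat_lit 6) (nat_lit 21) (nat_lit 4) (nat_lit 17) nl0 CL0 = true := by decide +kernel
def wf0_18 : wfC (nat_lit 59) (nat_lit 2) C0_18 = true := by decide +kernel
def pl0_18 : plCk (nat_lit 59) (nat_lit 2) (nat_lit 11) (nat_lit 1) (nat_lit 0) (nat_lit 6) (nat_lit 21) (nat_lit 4) (nat_lit 18) nl0 CL0 = true := by decide +kernel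
def wf0_19 : wfC (nat_lit 59) (nat_lit 2) C0_19 = true := by decide +kernel
def pl0_19 : plCk (nat_lit 59) (nat_lit 2) (nat_lit 11) (nat_lit 1) (nat_lit 0) (nat_lit 6) (nat_lit 21) (nat_lit 4) (nat_lit 19) nl0 CL0 = true := by decide +kernel
def wf0_20 : wfC (nat_lit 59) (nat_lit 2) C0_20 = true := by decide +kernel
def pl0_20 : plCk (nat_lit 59) (nat_lit 2) (nat_lit 11) (nat_lit 1) (nat_lit 0) (nat_lit 6) (nat_lit 21) (nat_lit 4) (nat_lit 20) nl0 CL0 = true := by decide +kernel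
def ti0_0 : tileCk (nat_lit 59) (nat_lit 2) (nat_lit 1) (nat_lit 1) (nat_lit 328) (nat_lit 11) (nat_lit 21) ZL0_0 CL0 = true := by decide +kernel
def zl0_0 : zlOK (nat_lit 328) ZL0_0 = true := by decide +kernel
def tc0_0 : tiCov (nat_lit 1) (nat_lit 0) ZZ0 C0_0 = true := by decide +kernel
def tc0_1 : tiCov (nat_lit 1) (nat_lit 1) ZZ0 C0_1 = true := by decide +kernel
def tc0_2 : tiCov (nat_lit 1) (nat_lit 2) ZZ0 C0_2 = true := by decide +kernel
def tc0_3 : tiCov (nat_lit 1) (nat_lit 3) ZZ0 C0_3 = true := by decide +kernel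
def tc0_4 : tiCov (nat_lit 1) (nat_lit 4) ZZ0 C0_4 = true := by decide +kernel
def tc0_5 : tiCov (nat_lit 1) (nat_lit 5) ZZ0 C0_5 = true := by decide +kernel
def tc0_6 : tiCov (nat_lit 1) (nat_lit 6) ZZ0 C0_6 = true := by decide +kernel
def tc0_7 : tiCov (nat_lit 1) (nat_lit 7) ZZ0 C0_7 = true := by decide +kernel
def tc0_8 : tiCov (nat_lit 1) (nat_lit 8) ZZ0 C0_8 = true := by decide +kernel
def tc0_9 : tiCov (nat_lit 1) (nat_lit 9) ZZ0 C0_9 = true := by decide +kernel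
def tc0_10 : tiCov (nat_lit 1) (nat_lit 10) ZZ0 C0_10 = true := by decide +kernel
def tc0_12 : tiCov (nat_lit 1) (nat_lit 12) ZZ0 C0_12 = true := by decide +kernel
def tc0_14 : tiCov (nat_lit 1) (nat_lit 14) ZZ0 C0_14 = true := by decide +kernel
def tc0_15 : tiCov (nat_lit 1) (nat_lit 15) ZZ0 C0_15 = true := by decide +kernel
def tc0_16 : tiCov (nat_lit 1) (nat_lit 16) ZZ0 C0_16 = true := by decide +kernel
def tc0_17 : tiCov (nat_lit 1) (nat_lit 17) ZZ0 C0_17 = true := by decide +kernel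
def tc0_18 : tiCov (nat_lit 1) (nat_lit 18) ZZ0 C0_18 = true := by decide +kernel
def tc0_19 : tiCov (nat_lit 1) (nat_lit 19) ZZ0 C0_19 = true := by decide +kernel
def tc0_20 : tiCov (nat_lit 1) (nat_lit 20) ZZ0 C0_20 = true := by decide +kernel
def wf1_0 : wfC (nat_lit 60) (nat_lit 4) C1_0 = true := by decide +kernel
def rf1_0 : rfCk (nat_lit 59) (nat_lit 2) (nat_lit 60) (nat_lit 4) (nat_lit 9) (nat_lit 0) (nat_lit 0) TL1 CL0 CL1 = true := by decide +kernel
def st1_0_0 : starCk (nat_lit 60) (nat_lit 4) (nat_lit 1) (nat_lit 2) (nat_lit 15) (nat_lit 27) (nat_lit 256) C1_0 = true := by decide +kernel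
def sc1_0 : stCov (nat_lit 2) (nat_lit 27) (Rl.cons (nat_lit 27) (nat_lit 15) Rl.nil) C1_0 = true := by decide +kernel
def wf1_1 : wfC (nat_lit 60) (nat_lit 4) C1_1 = true := by decide +kernel
def rf1_1 : rfCk (nat_lit 59) (nat_lit 2) (nat_lit 60) (nat_lit 4) (nat_lit 9) (nat_lit 0) (nat_lit 1) TL1 CL0 CL1 = true := by decide +kernel
def st1_1_0 : starCk (nat_lit 60) (nat_lit 4) (nat_lit 1) (nat_lit 2) (nat_lit 1) (nat_lit 0) (nat_lit 16) C1_1 = true := by decide +kernel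
def sc1_1 : stCov (nat_lit 1) (nat_lit 0) (Rl.cons (nat_lit 0) (nat_lit 1) Rl.nil) C1_1 = true := by decide +kernel
def wf1_2 : wfC (nat_lit 60) (nat_lit 4) C1_2 = true := by decide +kernel
def rf1_2 : rfCk (nat_lit 59) (nat_lit 2) (nat_lit 60) (nat_lit 4) (nat_lit 9) (nat_lit 0) (nat_lit 2) TL1 CL0 CL1 = true := by decide +kernel
def st1_2_0 : starCk (nat_lit 60) (nat_lit 4) (nat_lit 1) (nat_lit 2) (nat_lit 8) (nat_lit 8) (nat_lit 1) C1_2 = true := by decide +kernel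
def sc1_2 : stCov (nat_lit 0) (nat_lit 8) (Rl.cons (nat_lit 8) (nat_lit 8) Rl.nil) C1_2 = true := by decide +kernel
def wf1_3 : wfC (nat_lit 60) (nat_lit 4) C1_3 = true := by decide +kernel
def rf1_3 : rfCk (nat_lit 59) (nat_lit 2) (nat_lit 60) (nat_lit 4) (nat_lit 9) (nat_lit 0) (nat_lit 3) TL1 CL0 CL1 = true := by decide +kernel
def st1_3_0 : starCk (nat_lit 60) (nat_lit 4) (nat_lit 1) (nat_lit 2) (nat_lit 6) (nat_lit 6) (nat_lit 1) C1_3 = true := by decide +kernel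
def sc1_3 : stCov (nat_lit 0) (nat_lit 6) (Rl.cons (nat_lit 6) (nat_lit 6) Rl.nil) C1_3 = true := by decide +kernel
def wf1_4 : wfC (nat_lit 60) (nat_lit 4) C1_4 = true := by decide +kernel
def rf1_4 : rfCk (nat_lit 59) (nat_lit 2) (nat_lit 60) (nat_lit 4) (nat_lit 9) (nat_lit 0) (nat_lit 4) TL1 CL0 CL1 = true := by decide +kernel
def st1_4_0 : starCk (nat_lit 60) (nat_lit 4) (nat_lit 1) (nat_lit 2) (nat_lit 17) (nat_lit 20) (nat_lit 1) C1_4 = true := by decide +kernel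
def sc1_4 : stCov (nat_lit 0) (nat_lit 20) (Rl.cons (nat_lit 20) (nat_lit 17) Rl.nil) C1_4 = true := by decide +kernel
def wf1_5 : wfC (nat_lit 60) (nat_lit 4) C1_5 = true := by decide +kernel
def rf1_5 : rfCk (nat_lit 59) (nat_lit 2) (nat_lit 60) (nat_lit 4) (nat_lit 9) (nat_lit 0) (nat_lit 5) TL1 CL0 CL1 = true := by decide +kernel
def st1_5_0 : starCk (nat_lit 60) (nat_lit 4) (nat_lit 1) (nat_lit 2) (nat_lit 1) (nat_lit 1) (nat_lit 1) C1_5 = true := by decide +kernel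
def sc1_5 : stCov (nat_lit 0) (nat_lit 1) (Rl.cons (nat_lit 1) (nat_lit 1) Rl.nil) C1_5 = true := by decide +kernel
def wf1_6 : wfC (nat_lit 60) (nat_lit 4) C1_6 = true := by decide +kernel
def rf1_6 : rfCk (nat_lit 59) (nat_lit 2) (nat_lit 60) (nat_lit 4) (nat_lit 9) (nat_lit 0) (nat_lit 6) TL1 CL0 CL1 = true := by decide +kernel
def sc1_6 : stCov (nat_lit 2) (nat_lit 0) Rl.nil C1_6 = true := by decide +kernel
def wf1_7 : wfC (nat_lit 60) (nat_lit 4) C1_7 = true := by decide +kernel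
def rf1_7 : rfCk (nat_lit 59) (nat_lit 2) (nat_lit 60) (nat_lit 4) (nat_lit 9) (nat_lit 0) (nat_lit 7) TL1 CL0 CL1 = true := by decide +kernel
def st1_7_0 : starCk (nat_lit 60) (nat_lit 4) (nat_lit 1) (nat_lit 2) (nat_lit 6) (nat_lit 21) (nat_lit 16) C1_7 = true := by decide +kernel
def sc1_7 : stCov (nat_lit 1) (nat_lit 21) (Rl.cons (nat_lit 21) (nat_lit 6) Rl.nil) C1_7 = true := by decide +kernel
def wf1_9 : wfC (nat_lit 60) (nat_lit 4) C1_9 = true := by decide +kernel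
def rf1_9 : rfCk (nat_lit 59) (nat_lit 2) (nat_lit 60) (nat_lit 4) (nat_lit 9) (nat_lit 0) (nat_lit 9) TL1 CL0 CL1 = true := by decide +kernel
def st1_9_0 : starCk (nat_lit 60) (nat_lit 4) (nat_lit 1) (nat_lit 2) (nat_lit 1) (nat_lit 6) (nat_lit 256) C1_9 = true := by decide +kernel
def sc1_9 : stCov (nat_lit 2) (nat_lit 6) (Rl.cons (nat_lit 6) (nat_lit 1) Rl.nil) C1_9 = true := by decide +kernel
def wf1_10 : wfC (nat_lit 60) (nat_lit 4) C1_10 = true := by decide +kernel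
def rf1_10 : rfCk (nat_lit 59) (nat_lit 2) (nat_lit 60) (nat_lit 4) (nat_lit 9) (nat_lit 0) (nat_lit 10) TL1 CL0 CL1 = true := by decide +kernel
def sc1_10 : stCov (nat_lit 2) (nat_lit 0) Rl.nil C1_10 = true := by decide +kernel
def wf1_14 : wfC (nat_lit 60) (nat_lit 4) C1_14 = true := by decide +kernel
def rf1_14 : rfCk (nat_lit 59) (nat_lit 2) (nat_lit 60) (nat_lit 4) (nat_lit 9) (nat_lit 0) (nat_lit 14) TL1 CL0 CL1 = true := by decide +kernel
def st1_14_0 : starCk (nat_lit 60) (nat_lit 4) (nat_lit 1) (nat_lit 2) (nat_lit 39) (nat_lit 55) (nat_lit 4096) C1_14 = true := by decide +kernel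
def sc1_14 : stCov (nat_lit 3) (nat_lit 55) (Rl.cons (nat_lit 55) (nat_lit 39) Rl.nil) C1_14 = true := by decide +kernel
def wf1_15 : wfC (nat_lit 60) (nat_lit 4) C1_15 = true := by decide +kernel
def rf1_15 : rfCk (nat_lit 59) (nat_lit 2) (nat_lit 60) (nat_lit 4) (nat_lit 9) (nat_lit 0) (nat_lit 15) TL1 CL0 CL1 = true := by decide +kernel
def st1_15_0 : starCk (nat_lit 60) (nat_lit 4) (nat_lit 1) (nat_lit 2) (nat_lit 40) (nat_lit 88) (nat_lit 16) C1_15 = true := by decide +kernel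
def sc1_15 : stCov (nat_lit 1) (nat_lit 88) (Rl.cons (nat_lit 88) (nat_lit 40) Rl.nil) C1_15 = true := by decide +kernel
def wf1_16 : wfC (nat_lit 60) (nat_lit 4) C1_16 = true := by decide +kernel
def rf1_16 : rfCk (nat_lit 59) (nat_lit 2) (nat_lit 60) (nat_lit 4) (nat_lit 9) (nat_lit 0) (nat_lit 16) TL1 CL0 CL1 = true := by decide +kernel
def st1_16_0 : starCk (nat_lit 60) (nat_lit 4) (nat_lit 1) (nat_lit 2) (nat_lit 22) (nat_lit 24) (nat_lit 1) C1_16 = true := by decide +kernel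
def sc1_16 : stCov (nat_lit 0) (nat_lit 24) (Rl.cons (nat_lit 24) (nat_lit 22) Rl.nil) C1_16 = true := by decide +kernel
def wf1_17 : wfC (nat_lit 60) (nat_lit 4) C1_17 = true := by decide +kernel
def rf1_17 : rfCk (nat_lit 59) (nat_lit 2) (nat_lit 60) (nat_lit 4) (nat_lit 9) (nat_lit 0) (nat_lit 17) TL1 CL0 CL1 = true := by decide +kernel
def st1_17_0 : starCk (nat_lit 60) (nat_lit 4) (nat_lit 1) (nat_lit 2) (nat_lit 29) (nat_lit 61) (nat_lit 256) C1_17 = true := by decide +kernel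
def sc1_17 : stCov (nat_lit 2) (nat_lit 61) (Rl.cons (nat_lit 61) (nat_lit 29) Rl.nil) C1_17 = true := by decide +kernel
def wf1_18 : wfC (nat_lit 60) (nat_lit 4) C1_18 = true := by decide +kernel
def rf1_18 : rfCk (nat_lit 59) (nat_lit 2) (nat_lit 60) (nat_lit 4) (nat_lit 9) (nat_lit 0) (nat_lit 18) TL1 CL0 CL1 = true := by decide +kernel
def st1_18_0 : starCk (nat_lit 60) (nat_lit 4) (nat_lit 1) (nat_lit 2) (nat_lit 14) (nat_lit 30) (nat_lit 16) C1_18 = true := by decide +kernel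
def sc1_18 : stCov (nat_lit 1) (nat_lit 30) (Rl.cons (nat_lit 30) (nat_lit 14) Rl.nil) C1_18 = true := by decide +kernel
def wf1_19 : wfC (nat_lit 60) (nat_lit 4) C1_19 = true := by decide +kernel
def rf1_19 : rfCk (nat_lit 59) (nat_lit 2) (nat_lit 60) (nat_lit 4) (nat_lit 9) (nat_lit 0) (nat_lit 19) TL1 CL0 CL1 = true := by decide +kernel
def sc1_19 : stCov (nat_lit 3) (nat_lit 0) Rl.nil C1_19 = true := by decide +kernel
def ti1_0 : tileCk (nat_lit 60) (nat_lit 4) (nat_lit 2) (nat_lit 1) (nat_lit 158) (nat_lit 11) (nat_lit 21) ZL1_0 CL1 = true := by decide +kernel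
def zl1_0 : zlOK (nat_lit 158) ZL1_0 = true := by decide +kernel
def tc1_0 : tiCov (nat_lit 1) (nat_lit 0) ZZ1 C1_0 = true := by decide +kernel
def tc1_1 : tiCov (nat_lit 1) (nat_lit 1) ZZ1 C1_1 = true := by decide +kernel
def tc1_2 : tiCov (nat_lit 1) (nat_lit 2) ZZ1 C1_2 = true := by decide +kernel
def tc1_3 : tiCov (nat_lit 1) (nat_lit 3) ZZ1 C1_3 = true := by decide +kernel
def tc1_4 : tiCov (nat_lit 1) (nat_lit 4) ZZ1 C1_4 = true := by decide +kernel
def tc1_5 : tiCov (nat_lit 1) (nat_lit 5) ZZ1 C1_5 = true := by decide +kernel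
def tc1_6 : tiCov (nat_lit 1) (nat_lit 6) ZZ1 C1_6 = true := by decide +kernel
def tc1_7 : tiCov (nat_lit 1) (nat_lit 7) ZZ1 C1_7 = true := by decide +kernel
def tc1_9 : tiCov (nat_lit 1) (nat_lit 9) ZZ1 C1_9 = true := by decide +kernel
def tc1_10 : tiCov (nat_lit 1) (nat_lit 10) ZZ1 C1_10 = true := by decide +kernel
def tc1_14 : tiCov (nat_lit 1) (nat_lit 14) ZZ1 C1_14 = true := by decide +kernel
def tc1_15 : tiCov (nat_lit 1) (nat_lit 15) ZZ1 C1_15 = true := by decide +kernel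
def tc1_16 : tiCov (nat_lit 1) (nat_lit 16) ZZ1 C1_16 = true := by decide +kernel
def tc1_17 : tiCov (nat_lit 1) (nat_lit 17) ZZ1 C1_17 = true := by decide +kernel
def tc1_18 : tiCov (nat_lit 1) (nat_lit 18) ZZ1 C1_18 = true := by decide +kernel
def tc1_19 : tiCov (nat_lit 1) (nat_lit 19) ZZ1 C1_19 = true := by decide +kernel
def wf2_0 : wfC (nat_lit 55) (nat_lit 17) C2_0 = true := by decide +kernel
def rf2_0 : rfCk (nat_lit 60) (nat_lit 4) (nat_lit 55) (nat_lit 17) (nat_lit 1) (nat_lit 262144) (nat_lit 0) TL2 CL1 CL2 = true := by decide +kernel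
def st2_0_0 : starCk (nat_lit 55) (nat_lit 17) (nat_lit 1) (nat_lit 8) (nat_lit 17) (nat_lit 46) (nat_lit 256) C2_0 = true := by decide +kernel
def sc2_0 : stCov (nat_lit 2) (nat_lit 46) (Rl.cons (nat_lit 46) (nat_lit 17) Rl.nil) C2_0 = true := by decide +kernel
def wf2_1 : wfC (nat_lit 55) (nat_lit 17) C2_1 = true := by decide +kernel
def rf2_1 : rfCk (nat_lit 60) (nat_lit 4) (nat_lit 55) (nat_lit 17) (nat_lit 1) (nat_lit 262144) (nat_lit 1) TL2 CL1 CL2 = true := by decide +kernel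
def st2_1_0 : starCk (nat_lit 55) (nat_lit 17) (nat_lit 1) (nat_lit 8) (nat_lit 4) (nat_lit 0) (nat_lit 16) C2_1 = true := by decide +kernel
def sc2_1 : stCov (nat_lit 1) (nat_lit 0) (Rl.cons (nat_lit 0) (nat_lit 4) Rl.nil) C2_1 = true := by decide +kernel
def wf2_2 : wfC (nat_lit 55) (nat_lit 17) C2_2 = true := by decide +kernel
def rf2_2 : rfCk (nat_lit 60) (nat_lit 4) (nat_lit 55) (nat_lit 17) (nat_lit 1) (nat_lit 262144) (nat_lit 2) TL2 CL1 CL2 = true := by decide +kernel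
def st2_2_0 : starCk (nat_lit 55) (nat_lit 17) (nat_lit 1) (nat_lit 8) (nat_lit 28) (nat_lit 24) (nat_lit 1) C2_2 = true := by decide +kernel
def sc2_2 : stCov (nat_lit 0) (nat_lit 24) (Rl.cons (nat_lit 24) (nat_lit 28) Rl.nil) C2_2 = true := by decide +kernel
def wf2_3 : wfC (nat_lit 55) (nat_lit 17) C2_3 = true := by decide +kernel
def rf2_3 : rfCk (nat_lit 60) (nat_lit 4) (nat_lit 55) (nat_lit 17) (nat_lit 1) (nat_lit 262144) (nat_lit 3) TL2 CL1 CL2 = true := by decide +kernel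
def st2_3_0 : starCk (nat_lit 55) (nat_lit 17) (nat_lit 1) (nat_lit 8) (nat_lit 8) (nat_lit 83) (nat_lit 256) C2_3 = true := by decide +kernel
def sc2_3 : stCov (nat_lit 2) (nat_lit 83) (Rl.cons (nat_lit 83) (nat_lit 8) Rl.nil) C2_3 = true := by decide +kernel
def wf2_4 : wfC (nat_lit 55) (nat_lit 17) C2_4 = true := by decide +kernel
def rf2_4 : rfCk (nat_lit 60) (nat_lit 4) (nat_lit 55) (nat_lit 17) (nat_lit 1) (nat_lit 262144) (nat_lit 4) TL2 CL1 CL2 = true := by decide +kernel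
def st2_4_0 : starCk (nat_lit 55) (nat_lit 17) (nat_lit 1) (nat_lit 8) (nat_lit 21) (nat_lit 218) (nat_lit 256) C2_4 = true := by decide +kernel
def sc2_4 : stCov (nat_lit 2) (nat_lit 218) (Rl.cons (nat_lit 218) (nat_lit 21) Rl.nil) C2_4 = true := by decide +kernel
def wf2_7 : wfC (nat_lit 55) (nat_lit 17) C2_7 = true := by decide +kernel
def rf2_7 : rfCk (nat_lit 60) (nat_lit 4) (nat_lit 55) (nat_lit 17) (nat_lit 1) (nat_lit 262144) (nat_lit 7) TL2 CL1 CL2 = true := by decide +kernel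
def st2_7_0 : starCk (nat_lit 55) (nat_lit 17) (nat_lit 1) (nat_lit 8) (nat_lit 22) (nat_lit 58) (nat_lit 16) C2_7 = true := by decide +kernel
def sc2_7 : stCov (nat_lit 1) (nat_lit 58) (Rl.cons (nat_lit 58) (nat_lit 22) Rl.nil) C2_7 = true := by decide +kernel
def wf2_14 : wfC (nat_lit 55) (nat_lit 17) C2_14 = true := by decide +kernel
def rf2_14 : rfCk (nat_lit 60) (nat_lit 4) (nat_lit 55) (nat_lit 17) (nat_lit 1) (nat_lit 262144) (nat_lit 14) TL2 CL1 CL2 = true := by decide +kernel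
def st2_14_0 : starCk (nat_lit 55) (nat_lit 17) (nat_lit 1) (nat_lit 8) (nat_lit 98) (nat_lit 121) (nat_lit 4096) C2_14 = true := by decide +kernel
def sc2_14 : stCov (nat_lit 3) (nat_lit 121) (Rl.cons (nat_lit 121) (nat_lit 98) Rl.nil) C2_14 = true := by decide +kernel
def wf2_15 : wfC (nat_lit 55) (nat_lit 17) C2_15 = true := by decide +kernel
def rf2_15 : rfCk (nat_lit 60) (nat_lit 4) (nat_lit 55) (nat_lit 17) (nat_lit 1) (nat_lit 262144) (nat_lit 15) TL2 CL1 CL2 = true := by decide +kernel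
def st2_15_0 : starCk (nat_lit 55) (nat_lit 17) (nat_lit 1) (nat_lit 8) (nat_lit 128) (nat_lit 292) (nat_lit 16) C2_15 = true := by decide +kernel
def sc2_15 : stCov (nat_lit 1) (nat_lit 292) (Rl.cons (nat_lit 292) (nat_lit 128) Rl.nil) C2_15 = true := by decide +kernel
def wf2_16 : wfC (nat_lit 55) (nat_lit 17) C2_16 = true := by decide +kernel
def rf2_16 : rfCk (nat_lit 60) (nat_lit 4) (nat_lit 55) (nat_lit 17) (nat_lit 1) (nat_lit 262144) (nat_lit 16) TL2 CL1 CL2 = true := by decide +kernel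
def st2_16_0 : starCk (nat_lit 55) (nat_lit 17) (nat_lit 1) (nat_lit 8) (nat_lit 139) (nat_lit 298) (nat_lit 4096) C2_16 = true := by decide +kernel
def sc2_16 : stCov (nat_lit 3) (nat_lit 298) (Rl.cons (nat_lit 298) (nat_lit 139) Rl.nil) C2_16 = true := by decide +kernel

end Pool.Agent.NNr.R11_1_2_5
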