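import Pool.Agent.NNr.R11_1_2_5.D0
import Pool.Agent.NNr.R11_1_2_5.D1
import Pool.Agent.NNr.R11_1_2_5.D2
import Pool.Agent.NNr.R11_1_2_5.D3
import Pool.Agent.NNr.R11_1_2_5.D4
import Pool.Agent.NNe.Slots

set_option linter.all false
set_option maxRecDepth 1000000
namespace Pool.Agent.NNr.R11_1_2_5

open Pool.Agent.NNe

def wf2_17 : wfC (nat_lit 55) (nat_lit 17) C2_17 = true := by decide +kernel
def rf2_17 : rfCk (nat_lit 60) (nat_lit 4) (nat_lit 55) (nat_lit 17) (nat_lit 1) (nat_lit 262144) (nat_lit 17) TL2 CL1 CL2 = true := by decide +kernel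
def st2_17_0 : starCk (nat_lit 55) (nat_lit 17) (nat_lit 1) (nat_lit 8) (nat_lit 74) (nat_lit 204) (nat_lit 256) C2_17 = true := by decide +kernel
def sc2_17 : stCov (nat_lit 2) (nat_lit 204) (Rl.cons (nat_lit 204) (nat_lit 74) Rl.nil) C2_17 = true := by decide +kernel
def wf2_18 : wfC (nat_lit 55) (nat_lit 17) C2_18 = true := by decide +kernel
def rf2_18 : rfCk (nat_lit 60) (nat_lit 4) (nat_lit 55) (nat_lit 17) (nat_lit 1) (nat_lit 262144) (nat_lit 18) TL2 CL1 CL2 = true := by decide +kernel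
def st2_18_0 : starCk (nat_lit 55) (nat_lit 17) (nat_lit 1) (nat_lit 8) (nat_lit 48) (nat_lit 100) (nat_lit 16) C2_18 = true := by decide +kernel
def sc2_18 : stCov (nat_lit 1) (nat_lit 100) (Rl.cons (nat_lit 100) (nat_lit 48) Rl.nil) C2_18 = true := by decide +kernel
def ti2_0 : tileCk (nat_lit 55) (nat_lit 17) (nat_lit 2) (nat_lit 8) (nat_lit 242) (nat_lit 11) (nat_lit 21) ZL2_0 CL2 = true := by decide +kernel
def zl2_0 : zlOK (nat_lit 242) ZL2_0 = true := by decide +kernel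
def ti2_1 : tileCk (nat_lit 55) (nat_lit 17) (nat_lit 2) (nat_lit 8) (nat_lit 242) (nat_lit 11) (nat_lit 21) ZL2_1 CL2 = true := by decide +kernel
def zl2_1 : zlOK (nat_lit 242) ZL2_1 = true := by decide +kernel
def tc2_0 : tiCov (nat_lit 1) (nat_lit 0) ZZ2 C2_0 = true := by decide +kernel
def tc2_1 : tiCov (nat_lit 1) (nat_lit 1) ZZ2 C2_1 = true := by decide +kernel
def tc2_2 : tiCov (nat_lit 1) (nat_lit 2) ZZ2 C2_2 = true := by decide +kernel
def tc2_3 : tiCov (nat_lit 1) (nat_lit 3) ZZ2 C2_3 = true := by decide +kernel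
def tc2_4 : tiCov (nat_lit 1) (nat_lit 4) ZZ2 C2_4 = true := by decide +kernel
def tc2_7 : tiCov (nat_lit 1) (nat_lit 7) ZZ2 C2_7 = true := by decide +kernel
def tc2_14 : tiCov (nat_lit 1) (nat_lit 14) ZZ2 C2_14 = true := by decide +kernel
def tc2_15 : tiCov (nat_lit 1) (nat_lit 15) ZZ2 C2_15 = true := by decide +kernel
def tc2_16 : tiCov (nat_lit 1) (nat_lit 16) ZZ2 C2_16 = true := by decide +kernel
def tc2_17 : tiCov (nat_lit 1) (nat_lit 17) ZZ2 C2_17 = true := by decide +kernel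
def tc2_18 : tiCov (nat_lit 1) (nat_lit 18) ZZ2 C2_18 = true := by decide +kernel
def wf3_0 : wfC (nat_lit 53) (nat_lit 23) C3_0 = true := by decide +kernel
def rf3_0 : rfCk (nat_lit 55) (nat_lit 17) (nat_lit 53) (nat_lit 23) (nat_lit 9) (nat_lit 0) (nat_lit 0) TL3 CL2 CL3 = true := by decide +kernel
def st3_0_0 : starCk (nat_lit 53) (nat_lit 23) (nat_lit 1) (nat_lit 11) (nat_lit 1) (nat_lit 6) (nat_lit 256) C3_0 = true := by decide +kernel
def sc3_0 : stCov (nat_lit 2) (nat_lit 6) (Rl.cons (nat_lit 6) (nat_lit 1) Rl.nil) C3_0 = true := by decide +kernel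
def wf3_1 : wfC (nat_lit 53) (nat_lit 23) C3_1 = true := by decide +kernel
def rf3_1 : rfCk (nat_lit 55) (nat_lit 17) (nat_lit 53) (nat_lit 23) (nat_lit 9) (nat_lit 0) (nat_lit 1) TL3 CL2 CL3 = true := by decide +kernel
def st3_1_0 : starCk (nat_lit 53) (nat_lit 23) (nat_lit 1) (nat_lit 11) (nat_lit 1) (nat_lit 0) (nat_lit 16) C3_1 = true := by decide +kernel
def sc3_1 : stCov (nat_lit 1) (nat_lit 0) (Rl.cons (nat_lit 0) (nat_lit 1) Rl.nil) C3_1 = true := by decide +kernel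
def wf3_2 : wfC (nat_lit 53) (nat_lit 23) C3_2 = true := by decide +kernel
def rf3_2 : rfCk (nat_lit 55) (nat_lit 17) (nat_lit 53) (nat_lit 23) (nat_lit 9) (nat_lit 0) (nat_lit 2) TL3 CL2 CL3 = true := by decide +kernel
def st3_2_0 : starCk (nat_lit 53) (nat_lit 23) (nat_lit 1) (nat_lit 11) (nat_lit 11) (nat_lit 9) (nat_lit 1) C3_2 = true := by decide +kernel
def sc3_2 : stCov (nat_lit 0) (nat_lit 9) (Rl.cons (nat_lit 9) (nat_lit 11) Rl.nil) C3_2 = true := by decide +kernel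
def wf3_3 : wfC (nat_lit 53) (nat_lit 23) C3_3 = true := by decide +kernel
def rf3_3 : rfCk (nat_lit 55) (nat_lit 17) (nat_lit 53) (nat_lit 23) (nat_lit 9) (nat_lit 0) (nat_lit 3) TL3 CL2 CL3 = true := by decide +kernel
def st3_3_0 : starCk (nat_lit 53) (nat_lit 23) (nat_lit 1) (nat_lit 11) (nat_lit 3) (nat_lit 34) (nat_lit 256) C3_3 = true := by decide +kernel
def sc3_3 : stCov (nat_lit 2) (nat_lit 34) (Rl.cons (nat_lit 34) (nat_lit 3) Rl.nil) C3_3 = true := by decide +kernel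
def wf3_4 : wfC (nat_lit 53) (nat_lit 23) C3_4 = true := by decide +kernel
def rf3_4 : rfCk (nat_lit 55) (nat_lit 17) (nat_lit 53) (nat_lit 23) (nat_lit 9) (nat_lit 0) (nat_lit 4) TL3 CL2 CL3 = true := by decide +kernel
def st3_4_0 : starCk (nat_lit 53) (nat_lit 23) (nat_lit 1) (nat_lit 11) (nat_lit 7) (nat_lit 46) (nat_lit 256) C3_4 = true := by decide +kernel
def sc3_4 : stCov (nat_lit 2) (nat_lit 46) (Rl.cons (nat_lit 46) (nat_lit 7) Rl.nil) C3_4 = true := by decide +kernel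
def wf3_7 : wfC (nat_lit 53) (nat_lit 23) C3_7 = true := by decide +kernel
def rf3_7 : rfCk (nat_lit 55) (nat_lit 17) (nat_lit 53) (nat_lit 23) (nat_lit 9) (nat_lit 0) (nat_lit 7) TL3 CL2 CL3 = true := by decide +kernel
def st3_7_0 : starCk (nat_lit 53) (nat_lit 23) (nat_lit 1) (nat_lit 11) (nat_lit 7) (nat_lit 21) (nat_lit 16) C3_7 = true := by decide +kernel
def sc3_7 : stCov (nat_lit 1) (nat_lit 21) (Rl.cons (nat_lit 21) (nat_lit 7) Rl.nil) C3_7 = true := by decide +kernel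
def wf3_14 : wfC (nat_lit 53) (nat_lit 23) C3_14 = true := by decide +kernel
def rf3_14 : rfCk (nat_lit 55) (nat_lit 17) (nat_lit 53) (nat_lit 23) (nat_lit 9) (nat_lit 0) (nat_lit 14) TL3 CL2 CL3 = true := by decide +kernel
def st3_14_0 : starCk (nat_lit 53) (nat_lit 23) (nat_lit 1) (nat_lit 11) (nat_lit 6) (nat_lit 9) (nat_lit 4096) C3_14 = true := by decide +kernel
def sc3_14 : stCov (nat_lit 3) (nat_lit 9) (Rl.cons (nat_lit 9) (nat_lit 6) Rl.nil) C3_14 = true := by decide +kernel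
def wf3_15 : wfC (nat_lit 53) (nat_lit 23) C3_15 = true := by decide +kernel
def rf3_15 : rfCk (nat_lit 55) (nat_lit 17) (nat_lit 53) (nat_lit 23) (nat_lit 9) (nat_lit 0) (nat_lit 15) TL3 CL2 CL3 = true := by decide +kernel
def st3_15_0 : starCk (nat_lit 53) (nat_lit 23) (nat_lit 1) (nat_lit 11) (nat_lit 47) (nat_lit 217) (nat_lit 256) C3_15 = true := by decide +kernel
def sc3_15 : stCov (nat_lit 2) (nat_lit 217) (Rl.cons (nat_lit 217) (nat_lit 47) Rl.nil) C3_15 = true := by decide +kernel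
def wf3_16 : wfC (nat_lit 53) (nat_lit 23) C3_16 = true := by decide +kernel
def rf3_16 : rfCk (nat_lit 55) (nat_lit 17) (nat_lit 53) (nat_lit 23) (nat_lit 9) (nat_lit 0) (nat_lit 16) TL3 CL2 CL3 = true := by decide +kernel
def st3_16_0 : starCk (nat_lit 53) (nat_lit 23) (nat_lit 1) (nat_lit 11) (nat_lit 32) (nat_lit 98) (nat_lit 4096) C3_16 = true := by decide +kernel
def sc3_16 : stCov (nat_lit 3) (nat_lit 98) (Rl.cons (nat_lit 98) (nat_lit 32) Rl.nil) C3_16 = true := by decide +kernel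
def wf3_17 : wfC (nat_lit 53) (nat_lit 23) C3_17 = true := by decide +kernel
def rf3_17 : rfCk (nat_lit 55) (nat_lit 17) (nat_lit 53) (nat_lit 23) (nat_lit 9) (nat_lit 0) (nat_lit 17) TL3 CL2 CL3 = true := by decide +kernel
def st3_17_0 : starCk (nat_lit 53) (nat_lit 23) (nat_lit 1) (nat_lit 11) (nat_lit 19) (nat_lit 54) (nat_lit 256) C3_17 = true := by decide +kernel
def sc3_17 : stCov (nat_lit 2) (nat_lit 54) (Rl.cons (nat_lit 54) (nat_lit 19) Rl.nil) C3_17 = true := by decide +kernel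
def wf3_18 : wfC (nat_lit 53) (nat_lit 23) C3_18 = true := by decide +kernel
def rf3_18 : rfCk (nat_lit 55) (nat_lit 17) (nat_lit 53) (nat_lit 23) (nat_lit 9) (nat_lit 0) (nat_lit 18) TL3 CL2 CL3 = true := by decide +kernel
def st3_18_0 : starCk (nat_lit 53) (nat_lit 23) (nat_lit 1) (nat_lit 11) (nat_lit 40) (nat_lit 81) (nat_lit 4096) C3_18 = true := by decide +kernel
def sc3_18 : stCov (nat_lit 3) (nat_lit 81) (Rl.cons (nat_lit 81) (nat_lit 40) Rl.nil) C3_18 = true := by decide +kernel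
def ti3_0 : tileCk (nat_lit 53) (nat_lit 23) (nat_lit 2) (nat_lit 11) (nat_lit 117) (nat_lit 11) (nat_lit 21) ZL3_0 CL3 = true := by decide +kernel
def zl3_0 : zlOK (nat_lit 117) ZL3_0 = true := by decide +kernel
def ti3_1 : tileCk (nat_lit 53) (nat_lit 23) (nat_lit 2) (nat_lit 11) (nat_lit 31) (nat_lit 11) (nat_lit 21) ZL3_1 CL3 = true := by decide +kernel
def zl3_1 : zlOK (nat_lit 31) ZL3_1 = true := by decide +kernel
def tc3_0 : tiCov (nat_lit 1) (nat_lit 0) ZZ3 C3_0 = true := by decide +kernel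
def tc3_1 : tiCov (nat_lit 1) (nat_lit 1) ZZ3 C3_1 = true := by decide +kernel
def tc3_2 : tiCov (nat_lit 1) (nat_lit 2) ZZ3 C3_2 = true := by decide +kernel
def tc3_3 : tiCov (nat_lit 1) (nat_lit 3) ZZ3 C3_3 = true := by decide +kernel
def tc3_4 : tiCov (nat_lit 1) (nat_lit 4) ZZ3 C3_4 = true := by decide +kernel
def tc3_7 : tiCov (nat_lit 1) (nat_lit 7) ZZ3 C3_7 = true := by decide +kernel
def tc3_14 : tiCov (nat_lit 1) (nat_lit 14) ZZ3 C3_14 = true := by decide +kernel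
def tc3_15 : tiCov (nat_lit 1) (nat_lit 15) ZZ3 C3_15 = true := by decide +kernel
def tc3_16 : tiCov (nat_lit 1) (nat_lit 16) ZZ3 C3_16 = true := by decide +kernel
def tc3_17 : tiCov (nat_lit 1) (nat_lit 17) ZZ3 C3_17 = true := by decide +kernel
def tc3_18 : tiCov (nat_lit 1) (nat_lit 18) ZZ3 C3_18 = true := by decide +kernel
def wf4_15 : wfC (nat_lit 2) (nat_lit 2) C4_15 = true := by decide +kernel
def rf4_15 : rfCk (nat_lit 53) (nat_lit 23) (nat_lit 2) (nat_lit 2) (nat_lit 9) (nat_lit 0) (nat_lit 15) TL4 CL3 CL4 = true := by decide +kernel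
def ti4_0 : tileCk (nat_lit 2) (nat_lit 2) (nat_lit 1) (nat_lit 1) (nat_lit 1) (nat_lit 11) (nat_lit 21) ZL4_0 CL4 = true := by decide +kernel
def zl4_0 : zlOK (nat_lit 1) ZL4_0 = true := by decide +kernel
def tc4_15 : tiCov (nat_lit 1) (nat_lit 15) ZZ4 C4_15 = true := by decide +kernel
def de4_15 : deadCk (nat_lit 2) (nat_lit 2) C4_15 = true := by decide +kernel
def wf0_11 : wfC (nat_lit 59) (nat_lit 2) C0_11 = true := by decide +kernel
def pl0_11 : plCk (nat_lit 59) (nat_lit 2) (nat_lit 11) (nat_lit 1) (nat_lit 0) (nat_lit 6) (nat_lit 21) (nat_lit 4) (nat_lit 11) nl0 CL0 = true := by decide +kernel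
def wf0_13 : wfC (nat_lit 59) (nat_lit 2) C0_13 = true := by decide +kernel
def pl0_13 : plCk (nat_lit 59) (nat_lit 2) (nat_lit 11) (nat_lit 1) (nat_lit 0) (nat_lit 6) (nat_lit 21) (nat_lit 4) (nat_lit 13) nl0 CL0 = true := by decide +kernel
def sc0_0 : stCov (nat_lit 1) (nat_lit 0) (Rl.cons (nat_lit 0) (nat_lit 91) Rl.nil) C0_0 = true := by decide +kernel
def sc0_1 : stCov (nat_lit 1) (nat_lit 0) (Rl.cons (nat_lit 0) (nat_lit 10) Rl.nil) C0_1 = true := by decide +kernel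
def sc0_2 : stCov (nat_lit 0) (nat_lit 0) (Rl.cons (nat_lit 0) (nat_lit 87) Rl.nil) C0_2 = true := by decide +kernel
def sc0_3 : stCov (nat_lit 0) (nat_lit 0) (Rl.cons (nat_lit 0) (nat_lit 103) Rl.nil) C0_3 = true := by decide +kernel
def sc0_4 : stCov (nat_lit 0) (nat_lit 0) (Rl.cons (nat_lit 0) (nat_lit 170) Rl.nil) C0_4 = true := by decide +kernel
def sc0_5 : stCov (nat_lit 0) (nat_lit 0) (Rl.cons (nat_lit 0) (nat_lit 29) Rl.nil) C0_5 = true := by decide +kernel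
def sc0_6 : stCov (nat_lit 0) (nat_lit 0) (Rl.cons (nat_lit 0) (nat_lit 87) Rl.nil) C0_6 = true := by decide +kernel
def sc0_7 : stCov (nat_lit 0) (nat_lit 0) (Rl.cons (nat_lit 0) (nat_lit 123) Rl.nil) C0_7 = true := by decide +kernel
def sc0_8 : stCov (nat_lit 0) (nat_lit 0) (Rl.cons (nat_lit 0) (nat_lit 14) Rl.nil) C0_8 = true := by decide +kernel
def sc0_9 : stCov (nat_lit 0) (nat_lit 0) (Rl.cons (nat_lit 0) (nat_lit 63) Rl.nil) C0_9 = true := by decide +kernel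
def sc0_10 : stCov (nat_lit 0) (nat_lit 0) (Rl.cons (nat_lit 0) (nat_lit 50) Rl.nil) C0_10 = true := by decide +kernel
def sc0_11 : stCov (nat_lit 0) (nat_lit 0) Rl.nil C0_11 = true := by decide +kernel
def sc0_12 : stCov (nat_lit 0) (nat_lit 0) (Rl.cons (nat_lit 0) (nat_lit 32) Rl.nil) C0_12 = true := by decide +kernel
def sc0_13 : stCov (nat_lit 0) (nat_lit 0) Rl.nil C0_13 = true := by decide +kernel
def sc0_14 : stCov (nat_lit 1) (nat_lit 0) (Rl.cons (nat_lit 0) (nat_lit 192) Rl.nil) C0_14 = true := by decide +kernel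
def sc0_15 : stCov (nat_lit 0) (nat_lit 0) (Rl.cons (nat_lit 0) (nat_lit 726) Rl.nil) C0_15 = true := by decide +kernel
def sc0_16 : stCov (nat_lit 0) (nat_lit 0) (Rl.cons (nat_lit 0) (nat_lit 348) Rl.nil) C0_16 = true := by decide +kernel
def sc0_17 : stCov (nat_lit 0) (nat_lit 0) (Rl.cons (nat_lit 0) (nat_lit 461) Rl.nil) C0_17 = true := by decide +kernel
def sc0_18 : stCov (nat_lit 0) (nat_lit 0) (Rl.cons (nat_lit 0) (nat_lit 287) Rl.nil) C0_18 = true := by decide +kernel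
def sc0_19 : stCov (nat_lit 0) (nat_lit 0) (Rl.cons (nat_lit 0) (nat_lit 211) Rl.nil) C0_19 = true := by decide +kernel
def sc0_20 : stCov (nat_lit 0) (nat_lit 0) (Rl.cons (nat_lit 0) (nat_lit 70) Rl.nil) C0_20 = true := by decide +kernel
def tc0_11 : tiCov (nat_lit 1) (nat_lit 11) ZZ0 C0_11 = true := by decide +kernel
def tc0_13 : tiCov (nat_lit 1) (nat_lit 13) ZZ0 C0_13 = true := by decide +kernel
def wf1_8 : wfC (nat_lit 60) (nat_lit 4) C1_8 = true := by decide +kernel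
def wf1_11 : wfC (nat_lit 60) (nat_lit 4) C1_11 = true := by decide +kernel
def wf1_12 : wfC (nat_lit 60) (nat_lit 4) C1_12 = true := by decide +kernel
def wf1_13 : wfC (nat_lit 60) (nat_lit 4) C1_13 = true := by decide +kernel
def wf1_20 : wfC (nat_lit 60) (nat_lit 4) C1_20 = true := by decide +kernel
def rf1_8 : rfCk (nat_lit 59) (nat_lit 2) (nat_lit 60) (nat_lit 4) (nat_lit 9) (nat_lit 0) (nat_lit 8) TL1 CL0 CL1 = true := by decide +kernel
def rf1_11 : rfCk (nat_lit 59) (nat_lit 2) (nat_lit 60) (nat_lit 4) (nat_lit 9) (nat_lit 0) (nat_lit 11) TL1 CL0 CL1 = true := by decide +kernel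
def rf1_12 : rfCk (nat_lit 59) (nat_lit 2) (nat_lit 60) (nat_lit 4) (nat_lit 9) (nat_lit 0) (nat_lit 12) TL1 CL0 CL1 = true := by decide +kernel
def rf1_13 : rfCk (nat_lit 59) (nat_lit 2) (nat_lit 60) (nat_lit 4) (nat_lit 9) (nat_lit 0) (nat_lit 13) TL1 CL0 CL1 = true := by decide +kernel
def rf1_20 : rfCk (nat_lit 59) (nat_lit 2) (nat_lit 60) (nat_lit 4) (nat_lit 9) (nat_lit 0) (nat_lit 20) TL1 CL0 CL1 = true := by decide +kernel
def sc1_8 : stCov (nat_lit 0) (nat_lit 0) Rl.nil C1_8 = true := by decide +kernel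
def sc1_11 : stCov (nat_lit 0) (nat_lit 0) Rl.nil C1_11 = true := by decide +kernel
def sc1_12 : stCov (nat_lit 0) (nat_lit 0) Rl.nil C1_12 = true := by decide +kernel
def sc1_13 : stCov (nat_lit 0) (nat_lit 0) Rl.nil C1_13 = true := by decide +kernel
def sc1_20 : stCov (nat_lit 0) (nat_lit 0) Rl.nil C1_20 = true := by decide +kernel
def tc1_8 : tiCov (nat_lit 1) (nat_lit 8) ZZ1 C1_8 = true := by decide +kernel
def tc1_11 : tiCov (nat_lit 1) (nat_lit 11) ZZ1 C1_11 = true := by decide +kernel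
def tc1_12 : tiCov (nat_lit 1) (nat_lit 12) ZZ1 C1_12 = true := by decide +kernel
def tc1_13 : tiCov (nat_lit 1) (nat_lit 13) ZZ1 C1_13 = true := by decide +kernel
def tc1_20 : tiCov (nat_lit 1) (nat_lit 20) ZZ1 C1_20 = true := by decide +kernel
def wf2_5 : wfC (nat_lit 55) (nat_lit 17) C2_5 = true := by decide +kernel
def wf2_6 : wfC (nat_lit 55) (nat_lit 17) C2_6 = true := by decide +kernel
def wf2_8 : wfC (nat_lit 55) (nat_lit 17) C2_8 = true := by decide +kernel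
def wf2_9 : wfC (nat_lit 55) (nat_lit 17) C2_9 = true := by decide +kernel
def wf2_10 : wfC (nat_lit 55) (nat_lit 17) C2_10 = true := by decide +kernel
def wf2_11 : wfC (nat_lit 55) (nat_lit 17) C2_11 = true := by decide +kernel
def wf2_12 : wfC (nat_lit 55) (nat_lit 17) C2_12 = true := by decide +kernel
def wf2_13 : wfC (nat_lit 55) (nat_lit 17) C2_13 = true := by decide +kernel
def wf2_19 : wfC (nat_lit 55) (nat_lit 17) C2_19 = true := by decide +kernel
def wf2_20 : wfC (nat_lit 55) (nat_lit 17) C2_20 = true := by decide +kernel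
def rf2_5 : rfCk (nat_lit 60) (nat_lit 4) (nat_lit 55) (nat_lit 17) (nat_lit 1) (nat_lit 262144) (nat_lit 5) TL2 CL1 CL2 = true := by decide +kernel
def rf2_6 : rfCk (nat_lit 60) (nat_lit 4) (nat_lit 55) (nat_lit 17) (nat_lit 1) (nat_lit 262144) (nat_lit 6) TL2 CL1 CL2 = true := by decide +kernel
def rf2_8 : rfCk (nat_lit 60) (nat_lit 4) (nat_lit 55) (nat_lit 17) (nat_lit 1) (nat_lit 262144) (nat_lit 8) TL2 CL1 CL2 = true := by decide +kernel
def rf2_9 : rfCk (nat_lit 60) (nat_lit 4) (nat_lit 55) (nat_lit 17) (nat_lit 1) (nat_lit 262144) (nat_lit 9) TL2 CL1 CL2 = true := by decide +kernel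
def rf2_10 : rfCk (nat_lit 60) (nat_lit 4) (nat_lit 55) (nat_lit 17) (nat_lit 1) (nat_lit 262144) (nat_lit 10) TL2 CL1 CL2 = true := by decide +kernel
def rf2_11 : rfCk (nat_lit 60) (nat_lit 4) (nat_lit 55) (nat_lit 17) (nat_lit 1) (nat_lit 262144) (nat_lit 11) TL2 CL1 CL2 = true := by decide +kernel
def rf2_12 : rfCk (nat_lit 60) (nat_lit 4) (nat_lit 55) (nat_lit 17) (nat_lit 1) (nat_lit 262144) (nat_lit 12) TL2 CL1 CL2 = true := by decide +kernel
def rf2_13 : rfCk (nat_lit 60) (nat_lit 4) (nat_lit 55) (nat_lit 17) (nat_lit 1) (nat_lit 262144) (nat_lit 13) TL2 CL1 CL2 = true := by decide +kernel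
def rf2_19 : rfCk (nat_lit 60) (nat_lit 4) (nat_lit 55) (nat_lit 17) (nat_lit 1) (nat_lit 262144) (nat_lit 19) TL2 CL1 CL2 = true := by decide +kernel
def rf2_20 : rfCk (nat_lit 60) (nat_lit 4) (nat_lit 55) (nat_lit 17) (nat_lit 1) (nat_lit 262144) (nat_lit 20) TL2 CL1 CL2 = true := by decide +kernel
def sc2_5 : stCov (nat_lit 0) (nat_lit 0) Rl.nil C2_5 = true := by decide +kernel
def sc2_6 : stCov (nat_lit 0) (nat_lit 0) Rl.nil C2_6 = true := by decide +kernel
def sc2_8 : stCov (nat_lit 0) (nat_lit 0) Rl.nil C2_8 = true := by decide +kernel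
def sc2_9 : stCov (nat_lit 0) (nat_lit 0) Rl.nil C2_9 = true := by decide +kernel
def sc2_10 : stCov (nat_lit 0) (nat_lit 0) Rl.nil C2_10 = true := by decide +kernel
def sc2_11 : stCov (nat_lit 0) (nat_lit 0) Rl.nil C2_11 = true := by decide +kernel
def sc2_12 : stCov (nat_lit 0) (nat_lit 0) Rl.nil C2_12 = true := by decide +kernel
def sc2_13 : stCov (nat_lit 0) (nat_lit 0) Rl.nil C2_13 = true := by decide +kernel
def sc2_19 : stCov (nat_lit 0) (nat_lit 0) Rl.nil C2_19 = true := by decide +kernel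
def sc2_20 : stCov (nat_lit 0) (nat_lit 0) Rl.nil C2_20 = true := by decide +kernel
def tc2_5 : tiCov (nat_lit 1) (nat_lit 5) ZZ2 C2_5 = true := by decide +kernel
def tc2_6 : tiCov (nat_lit 1) (nat_lit 6) ZZ2 C2_6 = true := by decide +kernel
def tc2_8 : tiCov (nat_lit 1) (nat_lit 8) ZZ2 C2_8 = true := by decide +kernel
def tc2_9 : tiCov (nat_lit 1) (nat_lit 9) ZZ2 C2_9 = true := by decide +kernel
def tc2_10 : tiCov (nat_lit 1) (nat_lit 10) ZZ2 C2_10 = true := by decide +kernel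
def tc2_11 : tiCov (nat_lit 1) (nat_lit 11) ZZ2 C2_11 = true := by decide +kernel
def tc2_12 : tiCov (nat_lit 1) (nat_lit 12) ZZ2 C2_12 = true := by decide +kernel
def tc2_13 : tiCov (nat_lit 1) (nat_lit 13) ZZ2 C2_13 = true := by decide +kernel
def tc2_19 : tiCov (nat_lit 1) (nat_lit 19) ZZ2 C2_19 = true := by decide +kernel
def tc2_20 : tiCov (nat_lit 1) (nat_lit 20) ZZ2 C2_20 = true := by decide +kernel
def wf3_5 : wfC (nat_lit 53) (nat_lit 23) C3_5 = true := by decide +kernel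
def wf3_6 : wfC (nat_lit 53) (nat_lit 23) C3_6 = true := by decide +kernel
def wf3_8 : wfC (nat_lit 53) (nat_lit 23) C3_8 = true := by decide +kernel
def wf3_9 : wfC (nat_lit 53) (nat_lit 23) C3_9 = true := by decide +kernel
def wf3_10 : wfC (nat_lit 53) (nat_lit 23) C3_10 = true := by decide +kernel
def wf3_11 : wfC (nat_lit 53) (nat_lit 23) C3_11 = true := by decide +kernel
def wf3_12 : wfC (nat_lit 53) (nat_lit 23) C3_12 = true := by decide +kernel
def wf3_13 : wfC (nat_lit 53) (nat_lit 23) C3_13 = true := by decide +kernel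
def wf3_19 : wfC (nat_lit 53) (nat_lit 23) C3_19 = true := by decide +kernel
def wf3_20 : wfC (nat_lit 53) (nat_lit 23) C3_20 = true := by decide +kernel
def rf3_5 : rfCk (nat_lit 55) (nat_lit 17) (nat_lit 53) (nat_lit 23) (nat_lit 9) (nat_lit 0) (nat_lit 5) TL3 CL2 CL3 = true := by decide +kernel
def rf3_6 : rfCk (nat_lit 55) (nat_lit 17) (nat_lit 53) (nat_lit 23) (nat_lit 9) (nat_lit 0) (nat_lit 6) TL3 CL2 CL3 = true := by decide +kernel
def rf3_8 : rfCk (nat_lit 55) (nat_lit 17) (nat_lit 53) (nat_lit 23) (nat_lit 9) (nat_lit 0) (nat_lit 8) TL3 CL2 CL3 = true := by decide +kernel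
def rf3_9 : rfCk (nat_lit 55) (nat_lit 17) (nat_lit 53) (nat_lit 23) (nat_lit 9) (nat_lit 0) (nat_lit 9) TL3 CL2 CL3 = true := by decide +kernel
def rf3_10 : rfCk (nat_lit 55) (nat_lit 17) (nat_lit 53) (nat_lit 23) (nat_lit 9) (nat_lit 0) (nat_lit 10) TL3 CL2 CL3 = true := by decide +kernel
def rf3_11 : rfCk (nat_lit 55) (nat_lit 17) (nat_lit 53) (nat_lit 23) (nat_lit 9) (nat_lit 0) (nat_lit 11) TL3 CL2 CL3 = true := by decide +kernel
def rf3_12 : rfCk (nat_lit 55) (nat_lit 17) (nat_lit 53) (nat_lit 23) (nat_lit 9) (nat_lit 0) (nat_lit 12) TL3 CL2 CL3 = true := by decide +kernel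
def rf3_13 : rfCk (nat_lit 55) (nat_lit 17) (nat_lit 53) (nat_lit 23) (nat_lit 9) (nat_lit 0) (nat_lit 13) TL3 CL2 CL3 = true := by decide +kernel
def rf3_19 : rfCk (nat_lit 55) (nat_lit 17) (nat_lit 53) (nat_lit 23) (nat_lit 9) (nat_lit 0) (nat_lit 19) TL3 CL2 CL3 = true := by decide +kernel
def rf3_20 : rfCk (nat_lit 55) (nat_lit 17) (nat_lit 53) (nat_lit 23) (nat_lit 9) (nat_lit 0) (nat_lit 20) TL3 CL2 CL3 = true := by decide +kernel
def sc3_5 : stCov (nat_lit 0) (nat_lit 0) Rl.nil C3_5 = true := by decide +kernel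
def sc3_6 : stCov (nat_lit 0) (nat_lit 0) Rl.nil C3_6 = true := by decide +kernel
def sc3_8 : stCov (nat_lit 0) (nat_lit 0) Rl.nil C3_8 = true := by decide +kernel
def sc3_9 : stCov (nat_lit 0) (nat_lit 0) Rl.nil C3_9 = true := by decide +kernel
def sc3_10 : stCov (nat_lit 0) (nat_lit 0) Rl.nil C3_10 = true := by decide +kernel
def sc3_11 : stCov (nat_lit 0) (nat_lit 0) Rl.nil C3_11 = true := by decide +kernel
def sc3_12 : stCov (nat_lit 0) (nat_lit 0) Rl.nil C3_12 = true := by decide +kernel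
def sc3_13 : stCov (nat_lit 0) (nat_lit 0) Rl.nil C3_13 = true := by decide +kernel
def sc3_19 : stCov (nat_lit 0) (nat_lit 0) Rl.nil C3_19 = true := by decide +kernel
def sc3_20 : stCov (nat_lit 0) (nat_lit 0) Rl.nil C3_20 = true := by decide +kernel
def tc3_5 : tiCov (nat_lit 1) (nat_lit 5) ZZ3 C3_5 = true := by decide +kernel
def tc3_6 : tiCov (nat_lit 1) (nat_lit 6) ZZ3 C3_6 = true := by decide +kernel
def tc3_8 : tiCov (nat_lit 1) (nat_lit 8) ZZ3 C3_8 = true := by decide +kernel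
def tc3_9 : tiCov (nat_lit 1) (nat_lit 9) ZZ3 C3_9 = true := by decide +kernel
def tc3_10 : tiCov (nat_lit 1) (nat_lit 10) ZZ3 C3_10 = true := by decide +kernel
def tc3_11 : tiCov (nat_lit 1) (nat_lit 11) ZZ3 C3_11 = true := by decide +kernel
def tc3_12 : tiCov (nat_lit 1) (nat_lit 12) ZZ3 C3_12 = true := by decide +kernel
def tc3_13 : tiCov (nat_lit 1) (nat_lit 13) ZZ3 C3_13 = true := by decide +kernel
def tc3_19 : tiCov (nat_lit 1) (nat_lit 19) ZZ3 C3_19 = true := by decide +kernel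
def tc3_20 : tiCov (nat_lit 1) (nat_lit 20) ZZ3 C3_20 = true := by decide +kernel
def wf4_0 : wfC (nat_lit 2) (nat_lit 2) C4_0 = true := by decide +kernel
def wf4_1 : wfC (nat_lit 2) (nat_lit 2) C4_1 = true := by decide +kernel
def wf4_2 : wfC (nat_lit 2) (nat_lit 2) C4_2 = true := by decide +kernel
def wf4_3 : wfC (nat_lit 2) (nat_lit 2) C4_3 = true := by decide +kernel
def wf4_4 : wfC (nat_lit 2) (nat_lit 2) C4_4 = true := by decide +kernel
def wf4_5 : wfC (nat_lit 2) (nat_lit 2) C4_5 = true := by decide +kernel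
def wf4_6 : wfC (nat_lit 2) (nat_lit 2) C4_6 = true := by decide +kernel
def wf4_7 : wfC (nat_lit 2) (nat_lit 2) C4_7 = true := by decide +kernel
def wf4_8 : wfC (nat_lit 2) (nat_lit 2) C4_8 = true := by decide +kernel
def wf4_9 : wfC (nat_lit 2) (nat_lit 2) C4_9 = true := by decide +kernel
def wf4_10 : wfC (nat_lit 2) (nat_lit 2) C4_10 = true := by decide +kernel
def wf4_11 : wfC (nat_lit 2) (nat_lit 2) C4_11 = true := by decide +kernel
def wf4_12 : wfC (nat_lit 2) (nat_lit 2) C4_12 = true := by decide +kernel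
def wf4_13 : wfC (nat_lit 2) (nat_lit 2) C4_13 = true := by decide +kernel
def wf4_14 : wfC (nat_lit 2) (nat_lit 2) C4_14 = true := by decide +kernel
def wf4_16 : wfC (nat_lit 2) (nat_lit 2) C4_16 = true := by decide +kernel
def wf4_17 : wfC (nat_lit 2) (nat_lit 2) C4_17 = true := by decide +kernel
def wf4_18 : wfC (nat_lit 2) (nat_lit 2) C4_18 = true := by decide +kernel
def wf4_19 : wfC (nat_lit 2) (nat_lit 2) C4_19 = true := by decide +kernel
def wf4_20 : wfC (nat_lit 2) (nat_lit 2) C4_20 = true := by decide +kernel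
def rf4_0 : rfCk (nat_lit 53) (nat_lit 23) (nat_lit 2) (nat_lit 2) (nat_lit 9) (nat_lit 0) (nat_lit 0) TL4 CL3 CL4 = true := by decide +kernel
def rf4_1 : rfCk (nat_lit 53) (nat_lit 23) (nat_lit 2) (nat_lit 2) (nat_lit 9) (nat_lit 0) (nat_lit 1) TL4 CL3 CL4 = true := by decide +kernel
def rf4_2 : rfCk (nat_lit 53) (nat_lit 23) (nat_lit 2) (nat_lit 2) (nat_lit 9) (nat_lit 0) (nat_lit 2) TL4 CL3 CL4 = true := by decide +kernel
def rf4_3 : rfCk (nat_lit 53) (nat_lit 23) (nat_lit 2) (nat_lit 2) (nat_lit 9) (nat_lit 0) (nat_lit 3) TL4 CL3 CL4 = true := by decide +kernel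
def rf4_4 : rfCk (nat_lit 53) (nat_lit 23) (nat_lit 2) (nat_lit 2) (nat_lit 9) (nat_lit 0) (nat_lit 4) TL4 CL3 CL4 = true := by decide +kernel
def rf4_5 : rfCk (nat_lit 53) (nat_lit 23) (nat_lit 2) (nat_lit 2) (nat_lit 9) (nat_lit 0) (nat_lit 5) TL4 CL3 CL4 = true := by decide +kernel
def rf4_6 : rfCk (nat_lit 53) (nat_lit 23) (nat_lit 2) (nat_lit 2) (nat_lit 9) (nat_lit 0) (nat_lit 6) TL4 CL3 CL4 = true := by decide +kernel
def rf4_7 : rfCk (nat_lit 53) (nat_lit 23) (nat_lit 2) (nat_lit 2) (nat_lit 9) (nat_lit 0) (nat_lit 7) TL4 CL3 CL4 = true := by decide +kernel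
def rf4_8 : rfCk (nat_lit 53) (nat_lit 23) (nat_lit 2) (nat_lit 2) (nat_lit 9) (nat_lit 0) (nat_lit 8) TL4 CL3 CL4 = true := by decide +kernel
def rf4_9 : rfCk (nat_lit 53) (nat_lit 23) (nat_lit 2) (nat_lit 2) (nat_lit 9) (nat_lit 0) (nat_lit 9) TL4 CL3 CL4 = true := by decide +kernel
def rf4_10 : rfCk (nat_lit 53) (nat_lit 23) (nat_lit 2) (nat_lit 2) (nat_lit 9) (nat_lit 0) (nat_lit 10) TL4 CL3 CL4 = true := by decide +kernel
def rf4_11 : rfCk (nat_lit 53) (nat_lit 23) (nat_lit 2) (nat_lit 2) (nat_lit 9) (nat_lit 0) (nat_lit 11) TL4 CL3 CL4 = true := by decide +kernel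
def rf4_12 : rfCk (nat_lit 53) (nat_lit 23) (nat_lit 2) (nat_lit 2) (nat_lit 9) (nat_lit 0) (nat_lit 12) TL4 CL3 CL4 = true := by decide +kernel
def rf4_13 : rfCk (nat_lit 53) (nat_lit 23) (nat_lit 2) (nat_lit 2) (nat_lit 9) (nat_lit 0) (nat_lit 13) TL4 CL3 CL4 = true := by decide +kernel
def rf4_14 : rfCk (nat_lit 53) (nat_lit 23) (nat_lit 2) (nat_lit 2) (nat_lit 9) (nat_lit 0) (nat_lit 14) TL4 CL3 CL4 = true := by decide +kernel
def rf4_16 : rfCk (nat_lit 53) (nat_lit 23) (nat_lit 2) (nat_lit 2) (nat_lit 9) (nat_lit 0) (nat_lit 16) TL4 CL3 CL4 = true := by decide +kernel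
def rf4_17 : rfCk (nat_lit 53) (nat_lit 23) (nat_lit 2) (nat_lit 2) (nat_lit 9) (nat_lit 0) (nat_lit 17) TL4 CL3 CL4 = true := by decide +kernel
def rf4_18 : rfCk (nat_lit 53) (nat_lit 23) (nat_lit 2) (nat_lit 2) (nat_lit 9) (nat_lit 0) (nat_lit 18) TL4 CL3 CL4 = true := by decide +kernel
def rf4_19 : rfCk (nat_lit 53) (nat_lit 23) (nat_lit 2) (nat_lit 2) (nat_lit 9) (nat_lit 0) (nat_lit 19) TL4 CL3 CL4 = true := by decide +kernel
def rf4_20 : rfCk (nat_lit 53) (nat_lit 23) (nat_lit 2) (nat_lit 2) (nat_lit 9) (nat_lit 0) (nat_lit 20) TL4 CL3 CL4 = true := by decide +kernel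
def sc4_0 : stCov (nat_lit 1) (nat_lit 0) Rl.nil C4_0 = true := by decide +kernel
def sc4_1 : stCov (nat_lit 1) (nat_lit 0) Rl.nil C4_1 = true := by decide +kernel
def sc4_2 : stCov (nat_lit 0) (nat_lit 0) Rl.nil C4_2 = true := by decide +kernel
def sc4_3 : stCov (nat_lit 0) (nat_lit 0) Rl.nil C4_3 = true := by decide +kernel
def sc4_4 : stCov (nat_lit 0) (nat_lit 0) Rl.nil C4_4 = true := by decide +kernel
def sc4_5 : stCov (nat_lit 0) (nat_lit 0) Rl.nil C4_5 = true := by decide +kernel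
def sc4_6 : stCov (nat_lit 0) (nat_lit 0) Rl.nil C4_6 = true := by decide +kernel
def sc4_7 : stCov (nat_lit 0) (nat_lit 0) Rl.nil C4_7 = true := by decide +kernel
def sc4_8 : stCov (nat_lit 0) (nat_lit 0) Rl.nil C4_8 = true := by decide +kernel
def sc4_9 : stCov (nat_lit 0) (nat_lit 0) Rl.nil C4_9 = true := by decide +kernel
def sc4_10 : stCov (nat_lit 0) (nat_lit 0) Rl.nil C4_10 = true := by decide +kernel
def sc4_11 : stCov (nat_lit 0) (nat_lit 0) Rl.nil C4_11 = true := by decide +kernel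
def sc4_12 : stCov (nat_lit 0) (nat_lit 0) Rl.nil C4_12 = true := by decide +kernel
def sc4_13 : stCov (nat_lit 0) (nat_lit 0) Rl.nil C4_13 = true := by decide +kernel

end Pool.Agent.NNr.R11_1_2_5
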