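import Pool.Agent.NNr.R11_1_2_5.D4

set_option linter.all false
set_option maxRecDepth 1000000
namespace Pool.Agent.NNr.R11_1_2_5

open Pool.Agent.NNe

def sc4_14 : stCov (nat_lit 1) (nat_lit 0) Rl.nil C4_14 = true := by decide +kernel
def sc4_15 : stCov (nat_lit 0) (nat_lit 0) (Rl.cons (nat_lit 0) (nat_lit 6) Rl.nil) C4_15 = true := by decide +kernel
def sc4_16 : stCov (nat_lit 0) (nat_lit 0) Rl.nil C4_16 = true := by decide +kernel
def sc4_17 : stCov (nat_lit 0) (nat_lit 0) Rl.nil C4_17 = true := by decide +kernel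
def sc4_18 : stCov (nat_lit 0) (nat_lit 0) Rl.nil C4_18 = true := by decide +kernel
def sc4_19 : stCov (nat_lit 0) (nat_lit 0) Rl.nil C4_19 = true := by decide +kernel
def sc4_20 : stCov (nat_lit 0) (nat_lit 0) Rl.nil C4_20 = true := by decide +kernel
def tc4_0 : tiCov (nat_lit 1) (nat_lit 0) ZZ4 C4_0 = true := by decide +kernel
def tc4_1 : tiCov (nat_lit 1) (nat_lit 1) ZZ4 C4_1 = true := by decide +kernel
def tc4_2 : tiCov (nat_lit 1) (nat_lit 2) ZZ4 C4_2 = true := by decide +kernel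
def tc4_3 : tiCov (nat_lit 1) (nat_lit 3) ZZ4 C4_3 = true := by decide +kernel
def tc4_4 : tiCov (nat_lit 1) (nat_lit 4) ZZ4 C4_4 = true := by decide +kernel
def tc4_5 : tiCov (nat_lit 1) (nat_lit 5) ZZ4 C4_5 = true := by decide +kernel
def tc4_6 : tiCov (nat_lit 1) (nat_lit 6) ZZ4 C4_6 = true := by decide +kernel
def tc4_7 : tiCov (nat_lit 1) (nat_lit 7) ZZ4 C4_7 = true := by decide +kernel
def tc4_8 : tiCov (nat_lit 1) (nat_lit 8) ZZ4 C4_8 = true := by decide +kernel
def tc4_9 : tiCov (nat_lit 1) (nat_lit 9) ZZ4 C4_9 = true := by decide +kernel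
def tc4_10 : tiCov (nat_lit 1) (nat_lit 10) ZZ4 C4_10 = true := by decide +kernel
def tc4_11 : tiCov (nat_lit 1) (nat_lit 11) ZZ4 C4_11 = true := by decide +kernel
def tc4_12 : tiCov (nat_lit 1) (nat_lit 12) ZZ4 C4_12 = true := by decide +kernel
def tc4_13 : tiCov (nat_lit 1) (nat_lit 13) ZZ4 C4_13 = true := by decide +kernel
def tc4_14 : tiCov (nat_lit 1) (nat_lit 14) ZZ4 C4_14 = true := by decide +kernel
def tc4_16 : tiCov (nat_lit 1) (nat_lit 16) ZZ4 C4_16 = true := by decide +kernel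
def tc4_17 : tiCov (nat_lit 1) (nat_lit 17) ZZ4 C4_17 = true := by decide +kernel
def tc4_18 : tiCov (nat_lit 1) (nat_lit 18) ZZ4 C4_18 = true := by decide +kernel
def tc4_19 : tiCov (nat_lit 1) (nat_lit 19) ZZ4 C4_19 = true := by decide +kernel
def tc4_20 : tiCov (nat_lit 1) (nat_lit 20) ZZ4 C4_20 = true := by decide +kernel
def de4_0 : deadCk (nat_lit 2) (nat_lit 2) C4_0 = true := by decide +kernel
def de4_1 : deadCk (nat_lit 2) (nat_lit 2) C4_1 = true := by decide +kernel
def de4_2 : deadCk (nat_lit 2) (nat_lit 2) C4_2 = true := by decide +kernel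
def de4_3 : deadCk (nat_lit 2) (nat_lit 2) C4_3 = true := by decide +kernel
def de4_4 : deadCk (nat_lit 2) (nat_lit 2) C4_4 = true := by decide +kernel
def de4_5 : deadCk (nat_lit 2) (nat_lit 2) C4_5 = true := by decide +kernel
def de4_6 : deadCk (nat_lit 2) (nat_lit 2) C4_6 = true := by decide +kernel
def de4_7 : deadCk (nat_lit 2) (nat_lit 2) C4_7 = true := by decide +kernel
def de4_8 : deadCk (nat_lit 2) (nat_lit 2) C4_8 = true := by decide +kernel
def de4_9 : deadCk (nat_lit 2) (nat_lit 2) C4_9 = true := by decide +kernel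
def de4_10 : deadCk (nat_lit 2) (nat_lit 2) C4_10 = true := by decide +kernel
def de4_11 : deadCk (nat_lit 2) (nat_lit 2) C4_11 = true := by decide +kernel
def de4_12 : deadCk (nat_lit 2) (nat_lit 2) C4_12 = true := by decide +kernel
def de4_13 : deadCk (nat_lit 2) (nat_lit 2) C4_13 = true := by decide +kernel
def de4_14 : deadCk (nat_lit 2) (nat_lit 2) C4_14 = true := by decide +kernel
def de4_16 : deadCk (nat_lit 2) (nat_lit 2) C4_16 = true := by decide +kernel
def de4_17 : deadCk (nat_lit 2) (nat_lit 2) C4_17 = true := by decide +kernel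
def de4_18 : deadCk (nat_lit 2) (nat_lit 2) C4_18 = true := by decide +kernel
def de4_19 : deadCk (nat_lit 2) (nat_lit 2) C4_19 = true := by decide +kernel
def de4_20 : deadCk (nat_lit 2) (nat_lit 2) C4_20 = true := by decide +kernel

end Pool.Agent.NNr.R11_1_2_5
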